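import Pool.Agent.TH747.HS.DncK

/-! Solutions compute functions avoiding all single-valued sections: general form. -/

namespace Pool.Agent.TH747.HS

open Encodable Filter Pool.Agent.H645R2.HT Pool.Agent.Helper446 Pool.Agent.Helper446.RE
  Pool.Agent.Helper446.Oracle
open Pool.Agent.TH747.HT hiding dl el c_dl c_el
open Pool.Agent.H19R3.DNC (idx c_idx idx_iff dl el c_dl c_el Good)

variable {D : ℕ → ℕ → Bool} {ψ : ℕ → Prop} {A Y : Set ℕ}

/-- If the facts `ψ` are decided in the limit by `D`, solutions for the diagonal colouring of `D`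
compute a function avoiding all single-valued sections of `G`, where `e` is an index of the sets
coded by the sections. -/
theorem dnc_gen {k : ℕ} (hk : 0 < k) {V : Ultrafilter ℕ} (hV : FarU V)
    (hlim : ∀ z, Sm V k (fun l => (D z l = true ↔ ψ z))) (hp : 0 ∉ Y)
    (hY : ∀ N, ∃ x ∈ Y, 3 ^ N ∣ x)
    (hc : ∃ i, ∀ h ∈ Y, Sm V k (fun l => col D (h + l) = i))
    (r1 : REIn A fun n : ℕ => n ∈ Y) (r2 : REIn A fun n : ℕ => n ∉ Y)
    {G : ℕ → ℕ → Prop} (e : ℕ)
    (he : ∀ q n, (∃ a, ψ (Nat.pair (idx e q) (Nat.pair n a))) ↔ ∃ m, G q m ∧ n ∈ dl m) :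
    ∃ f : ℕ → ℕ, REIn A (fun x : ℕ × ℕ => f x.1 = x.2) ∧
      ∀ q, ¬ ∀ m, G q m ↔ m = f q := by
  classical
  have hex : ∀ q, ∃ m, Good Y (4 * idx e q) m := fun q => exists_good hp hY _
  have hidx : ∀ {β : Type} [Primcodable β] {f : β → ℕ}, Computable f →
      Computable fun b => 4 * idx e (f b) := by
    intro β _ f hf
    have := c_idx e hf
    fun_prop
  refine ⟨fun q => Nat.find (hex q), ?_, ?_⟩
  · have h1 : REIn A fun x : ℕ × ℕ => Good Y (4 * idx e x.1) x.2 ∧
        ∀ i < x.2, ¬ Good Y (4 * idx e x.1) i := by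
      refine REIn.and (re_good r1 (hidx (by fun_prop)) (by fun_prop)) ?_
      refine REIn.all_lt (S := fun (x : ℕ × ℕ) i => ¬ Good Y (4 * idx e x.1) i) ?_ (by fun_prop)
      exact re_not_good r2 (N := fun x : (ℕ × ℕ) × ℕ => 4 * idx e x.1.1)
        (m := fun x : (ℕ × ℕ) × ℕ => x.2) (hidx (by fun_prop)) (by fun_prop)
    refine h1.of_eq fun x => ?_
    constructor
    · rintro ⟨h2, h3⟩
      exact (Nat.find_eq_iff _).2 ⟨h2, h3⟩
    · intro h2
      exact (Nat.find_eq_iff _).1 h2
  · intro q hq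
    obtain ⟨h1, h2, h3⟩ := Nat.find_spec (hex q)
    dsimp only at hq
    generalize Nat.find (hex q) = m at *
    have hmem : ∀ n, (∃ a, ψ (Nat.pair (idx e q) (Nat.pair n a))) ↔ n ∈ dl m := by
      intro n
      rw [he q n]
      constructor
      · rintro ⟨m', hm', hn⟩
        rw [(hq m').1 hm'] at hn
        exact hn
      · intro hn
        exact ⟨m, (hq m).2 rfl, hn⟩
    have hel : ∀ i < 4 * idx e q + 2, el m i ∈ dl m := by
      intro i hi
      unfold el
      rw [List.getElem?_eq_getElem (by omega)]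
      exact List.getElem_mem _
    refine no_chain (k := k) hk hV hlim hp hc (idx e q) ?_ (el m) ?_ ?_
    · intro n hn
      obtain ⟨i, hi, rfl⟩ := List.getElem_of_mem ((hmem n).1 hn)
      have h4 := h2 i (by omega)
      unfold el at h4
      rwa [List.getElem?_eq_getElem hi] at h4
    · intro i hi
      exact (hmem _).2 (hel i (by omega))
    · intro i hi
      exact h3 i (by omega)

end Pool.Agent.TH747.HS
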