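import Pool.Agent.TH747.HP.DncG

/-! Sums of at most two elements: `Π⁰₂` facts are decided in the limit by solutions of the modulus
colouring. -/

namespace Pool.Agent.TH747.HS

open Encodable Filter Pool.Agent.H645R2.HT Pool.Agent.Helper446 Pool.Agent.Helper446.RE
  Pool.Agent.Helper446.Oracle
open Pool.Agent.TH747.HT hiding dl el c_dl c_el
open Pool.Agent.H19R3.DNC (idx c_idx idx_iff dl el c_dl c_el Good Sig3 exists_index)

/-- The instance `b` of the fact `z`. -/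
def i2 (z b : ℕ) : ℕ :=
  Nat.pair z.unpair.1 (Nat.pair z.unpair.2.unpair.1 (Nat.pair z.unpair.2.unpair.2 b))

/-- `Π⁰₂` facts. -/
def Psi2 (z : ℕ) : Prop := ∀ b, ∃ s, W0 s (i2 z b) = true

theorem le_i2 (z b : ℕ) : b ≤ i2 z b :=
  le_trans (Nat.right_le_pair _ _) (le_trans (Nat.right_le_pair _ _) (Nat.right_le_pair _ _))

/-- The decision. -/
def D2 (z l : ℕ) : Bool :=
  !(exB (fun b => decide (i2 z b < la l + 1) && !(W0 (mu l) (i2 z b))) (la l + 1))

theorem D2_iff {z l : ℕ} : D2 z l = true ↔ ∀ b, i2 z b ≤ la l → W0 (mu l) (i2 z b) = true := by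
  unfold D2
  rw [Bool.not_eq_true', ← Bool.not_eq_true, exB_iff]
  constructor
  · intro h b hb
    by_contra hc
    refine h ⟨b, by have := le_i2 z b; omega, ?_⟩
    rw [Bool.not_eq_true] at hc
    simp [hc, Nat.lt_succ_of_le hb]
  · rintro h ⟨b, hb, h1⟩
    simp only [Bool.and_eq_true, decide_eq_true_eq, Bool.not_eq_true'] at h1
    have := h b (by omega)
    rw [h1.2] at this
    cases this

theorem c_D2 : Computable fun x : ℕ × ℕ => D2 x.1 x.2 := by
  unfold D2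
  refine cnot (computable_exB (q := fun (x : ℕ × ℕ) b => decide (i2 x.1 b < la x.2 + 1) &&
    !(W0 (mu x.2) (i2 x.1 b))) ?_ (by fun_prop))
  unfold Computable₂
  have h1 : Computable fun x : (ℕ × ℕ) × ℕ => i2 x.1.1 x.2 := by
    unfold i2
    fun_prop
  refine cand (c_dlt h1 (by fun_prop)) (cnot ?_)
  exact c_W0.comp (g := fun x : (ℕ × ℕ) × ℕ => (mu x.1.2, i2 x.1.1 x.2)) (by fun_prop)

theorem lim2 {V : Ultrafilter ℕ} (hV : FarU V) {X : Set ℕ} (hM : ModOK W0 X)
    (hX : ∀ᶠ n in (V : Filter ℕ), n ∈ X) (z : ℕ) :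
    Sm V 1 (fun l => (D2 z l = true ↔ Psi2 z)) := by
  rw [Sm_one]
  by_cases h : Psi2 z
  · filter_upwards [hX] with l hl
    refine iff_of_true (D2_iff.2 fun b hb => ?_) h
    obtain ⟨s, hs⟩ := h b
    exact hM l hl _ hb s hs
  · have h' := h
    unfold Psi2 at h'
    push Not at h'
    obtain ⟨b, hb⟩ := h'
    filter_upwards [hV (i2 z b)] with l hl
    refine iff_of_false (fun hd => ?_) h
    have h1 := D2_iff.1 hd b hl.2.le
    exact hb _ h1

/-- `c` is constant on the sums of at most `2` distinct elements of `X`. -/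
def Const2 {κ : Type} (c : ℕ → κ) (X : Set ℕ) : Prop :=
  ∃ i, ∀ F : Finset ℕ, (F : Set ℕ) ⊆ X → F.Nonempty → F.card ≤ 2 → c (∑ n ∈ F, n) = i

theorem Const2.one {κ : Type} {c : ℕ → κ} {X : Set ℕ} (h : Const2 c X) :
    ∃ i, (∀ x ∈ X, c x = i) ∧ (∀ x ∈ X, ∀ y ∈ X, x ≠ y → c (x + y) = i) := by
  obtain ⟨i, hi⟩ := h
  refine ⟨i, fun x hx => ?_, fun x hx y hy hxy => ?_⟩
  · have := hi {x} (by simpa using hx) (by simp) (by simp)
    simpa using this
  · have := hi {x, y} (by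
      intro w hw
      simp only [Finset.coe_insert, Finset.coe_singleton, Set.mem_insert_iff,
        Set.mem_singleton_iff] at hw
      rcases hw with rfl | rfl <;> assumption) (by simp) (by
      rw [Finset.card_pair hxy])
    rw [Finset.sum_pair hxy] at this
    exact this

theorem Const2.map {κ μ : Type} {c : ℕ → κ} {X : Set ℕ} (h : Const2 c X) (f : κ → μ) :
    Const2 (fun n => f (c n)) X := by
  obtain ⟨i, hi⟩ := h
  exact ⟨f i, fun F h1 h2 h3 => congrArg f (hi F h1 h2 h3)⟩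

theorem Const2.eq2 {c : ℕ → Bool} {X : Set ℕ} (hp : Ps X) (h : Const2 c X) : Eq2 c X := by
  obtain ⟨i, h1, h2⟩ := h.one
  intro x hx y hy hxy
  rw [h1 x hx, h2 x hx y hy (sep_ne (hp x hx) hxy)]

theorem Const2.far {X : Set ℕ} (hinf : X.Infinite) (hp : Ps X) (h : Const2 b0 X) : Far X := by
  obtain ⟨i, h1, h2⟩ := h.one
  refine far_of hinf hp ?_ ?_
  · intro x hx y hy hxy
    have h3 := (h2 x hx y hy hxy).trans (h1 x hx).symm
    unfold b0 at h3
    simpa using h3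
  · intro x hx y hy
    have h3 := (h1 x hx).trans (h1 y hy).symm
    unfold b0 at h3
    simpa using h3

theorem dvd_of_far {X : Set ℕ} (hf : Far X) (N : ℕ) : ∃ x ∈ X, 3 ^ N ∣ x := by
  obtain ⟨x, hx, hN⟩ := hf N
  exact ⟨x, hx, dvd_of_dg fun i hi => dg_of_lt_la (by omega)⟩

/-- Sums of at most two elements: solutions compute functions avoiding all single-valued
sections of `Σ⁰₃` relations. -/
theorem dnc2 {X : Set ℕ} (hinf : X.Infinite) (h0 : 0 ∉ X) (hb0 : Const2 b0 X)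
    (hb1 : Const2 (C (g1 W0)) X) (hb2 : Const2 (col D2) X)
    {R : ℕ → ℕ → ℕ → ℕ → ℕ → Bool}
    (hR : Computable fun x : ℕ × ℕ × ℕ × ℕ × ℕ => R x.1 x.2.1 x.2.2.1 x.2.2.2.1 x.2.2.2.2) :
    ∃ f : ℕ → ℕ, REIn X (fun x : ℕ × ℕ => f x.1 = x.2) ∧
      ∀ q, ¬ ∀ m, Sig3 R q m ↔ m = f q := by
  have hp : Ps X := ps_of h0
  have hf := hb0.far hinf hp
  have hM := modOK mon_W0 hp hf (hb1.eq2 hp)
  have hd := dvd_of_far hf
  obtain ⟨V, hV, hX⟩ := exists_farU h0 hd
  obtain ⟨e, he⟩ := Pool.Agent.H19R3.DNC.exists_index hR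
  obtain ⟨i, -, hi⟩ := hb2.one
  refine dnc_gen (k := 1) (by omega) hV (lim2 hV hM hX) h0 hd ⟨i, fun h hh => ?_⟩
    (REIn.mem Computable.id) (REIn.not_mem Computable.id) e ?_
  · rw [Sm_one]
    filter_upwards [hX, hV (mu h)] with l hl hl'
    exact hi h hh l hl (sep_ne (hp h hh) hl'.2)
  · intro q n
    rw [← he q n]
    refine exists_congr fun a => ?_
    unfold Psi2 Tr i2
    simp only [Nat.unpair_pair]

end Pool.Agent.TH747.HS
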